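import Mathlib
import Pool.Agent.K4H74.SC.Inst

/-!
# The numbers `A(χ, φ)` modulo the algebraic numbers
-/

set_option autoImplicit false
set_option linter.unusedSectionVars false

namespace Pool.Agent.K4H34.AL

open NumberField Pool.Agent.K4H74.ST Pool.Agent.K4H74.SC Pool.Agent.R389

/-- the field of the algebraic numbers -/
noncomputable abbrev QB : IntermediateField ℚ ℂ := algebraicClosure ℚ ℂ

lemma mem_QB {x : ℂ} : x ∈ QB ↔ IsAlgebraic ℚ x := mem_algebraicClosure_iff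

/-- Newton: the product is in the field of the power sums -/
theorem prod_mem_of_psum {n : ℕ} (s : Fin n → ℂ) (h : ∀ k : ℕ, ∑ i, s i ^ k ∈ QB) :
    ∏ i, s i ∈ QB := by
  have key : ∀ k : ℕ, MvPolynomial.aeval s (MvPolynomial.esymm (Fin n) ℂ k) ∈ QB := by
    intro k
    induction k using Nat.strong_induction_on with
    | _ k ih =>
      rcases Nat.eq_zero_or_pos k with rfl | hk
      · simp
      have hk' : (k : ℂ) ≠ 0 := by exact_mod_cast hk.ne'
      have hp : ∀ (t : Fin n → ℂ) (m : ℕ), MvPolynomial.aeval t (MvPolynomial.psum (Fin n) ℂ m)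
          = ∑ i, t i ^ m := by
        intro t m
        simp [MvPolynomial.psum]
      have h1 := congrArg (MvPolynomial.aeval s) (MvPolynomial.mul_esymm_eq_sum (Fin n) ℂ k)
      simp only [map_mul, map_sum, map_pow, map_neg, map_one, map_natCast, hp] at h1
      have h2 : MvPolynomial.aeval s (MvPolynomial.esymm (Fin n) ℂ k)
          = (k : ℂ)⁻¹ * ((k : ℂ) * MvPolynomial.aeval s (MvPolynomial.esymm (Fin n) ℂ k)) := by
        rw [inv_mul_cancel_left₀ hk']
      rw [h2, h1]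
      refine mul_mem (inv_mem (natCast_mem QB k)) (mul_mem (pow_mem (neg_mem (one_mem QB)) _)
        (sum_mem fun a ha => ?_))
      rw [Finset.mem_filter] at ha
      exact mul_mem (mul_mem (pow_mem (neg_mem (one_mem QB)) _) (ih a.1 ha.2)) (h a.2)
  have h3 := key n
  have h4 : ∀ t : Fin n → ℂ, MvPolynomial.aeval t (MvPolynomial.esymm (Fin n) ℂ n) = ∏ i, t i := by
    intro t
    rw [MvPolynomial.esymm]
    have h5 : Finset.powersetCard n (Finset.univ : Finset (Fin n)) = {Finset.univ} := by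
      have := Finset.powersetCard_self (Finset.univ : Finset (Fin n))
      rwa [Finset.card_univ, Fintype.card_fin] at this
    rw [h5]
    simp
  rwa [h4] at h3

lemma detOf_mem {t : ℕ → ℂ} {d : ℂ} (h : DetOf t d) (ht : ∀ k, t k ∈ QB) : d ∈ QB := by
  obtain ⟨V, _, _, _, T, hT, rfl⟩ := h
  let b := Module.finBasis ℂ V
  obtain ⟨s, hs1, hs2⟩ := exists_eig _ (LinearMap.toMatrix b b T)
  rw [← LinearMap.det_toMatrix b, hs1]
  apply prod_mem_of_psum
  intro k
  have h5 : (LinearMap.toMatrix b b T ^ k) = LinearMap.toMatrix b b (T ^ k) :=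
    (map_pow (LinearMap.toMatrixAlgEquiv b) T k).symm
  rw [← hs2, h5, ← LinearMap.trace_eq_matrix_trace, hT]
  exact ht k

/-- the values of characters of finite groups are algebraic -/
lemma isChar_mem {G : Type} [Group G] [Finite G] {χ : G → ℂ} (h : IsChar χ) (g : G) :
    χ g ∈ QB := by
  obtain ⟨V, _, _, _, ρ, rfl⟩ := h
  unfold Representation.character
  rw [Module.End.trace_eq_sum_roots_charpoly_of_splits (IsAlgClosed.splits _)]
  have key : ∀ μ ∈ (LinearMap.charpoly (ρ g)).roots, μ ∈ QB := by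
    intro μ hμ
    have h1 : (LinearMap.charpoly (ρ g)).IsRoot μ := (Polynomial.mem_roots'.mp hμ).2
    have h2 := (Module.End.hasEigenvalue_iff_isRoot_charpoly (ρ g) μ).mpr h1
    obtain ⟨v, hv⟩ := h2.exists_hasEigenvector
    have h3 : ∀ n : ℕ, ((ρ g) ^ n) v = μ ^ n • v := fun n => by
      induction n with
      | zero => simp
      | succ n ih =>
        rw [pow_succ', Module.End.mul_apply, ih, map_smul, hv.apply_eq_smul, smul_smul, pow_succ]
    have h4 := h3 (orderOf g)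
    rw [← map_pow, pow_orderOf_eq_one, map_one, Module.End.one_apply] at h4
    have h5 : μ ^ orderOf g = 1 := by
      have h6 : (μ ^ orderOf g - 1) • v = 0 := by
        rw [sub_smul, one_smul, ← h4, sub_self]
      rcases smul_eq_zero.mp h6 with h7 | h7
      · exact sub_eq_zero.mp h7
      · exact absurd h7 hv.2
    rw [mem_QB]
    refine IsAlgebraic.of_pow (orderOf_pos g) ?_
    rw [h5]
    exact isAlgebraic_one
  generalize (LinearMap.charpoly (ρ g)).roots = s at key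
  exact multiset_sum_mem s key

section reg

variable {K L : Type} [Field K] [NumberField K] [Field L] [NumberField L] [Algebra K L]

/-- changing `φ` multiplies the regulator by an algebraic number -/
theorem isReg_ratio {φ φ' : StarkMap K L} {χ : (L ≃ₐ[K] L) → ℂ} {r r' : ℂ} (hχ : IsChar χ)
    (h : IsReg φ χ r) (h' : IsReg φ' χ r') : ∃ d ∈ QB, r' = r * d := by
  -- the automorphism `α = φ⁻¹ φ'`
  let α : XX L ℚ ≃ₗ[ℚ] XX L ℚ := φ'.phi.trans φ.phi.symm
  have hαe : ∀ (g : L ≃ₐ[K] L) x, α (XRep K L ℚ g x) = XRep K L ℚ g (α x) := by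
    intro g x
    apply φ.phi.injective
    change φ.phi (φ.phi.symm (φ'.phi _)) = φ.phi (XRep K L ℚ g (φ.phi.symm (φ'.phi x)))
    rw [LinearEquiv.apply_symm_apply, φ.equi, LinearEquiv.apply_symm_apply, φ'.equi]
  let cC : XX L ℚ →ₗ[ℚ] XX L ℂ :=
    { toFun := fun x => toC L x
      map_add' := fun x y => toC_add x y
      map_smul' := fun c x => by
        apply Subtype.ext
        funext w
        change ((c * x.1 w : ℚ) : ℂ) = c • ((x.1 w : ℚ) : ℂ)
        rw [Rat.smul_def]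
        push_cast
        rfl }
  obtain ⟨B, hB⟩ := XX_lift (cC ∘ₗ (α : XX L ℚ →ₗ[ℚ] XX L ℚ))
  have hB' : ∀ x, B (toC L x) = toC L (α x) := hB
  have hBpow : ∀ (k : ℕ) (x : XX L ℚ), (B ^ k) (toC L x)
      = toC L (((α : XX L ℚ →ₗ[ℚ] XX L ℚ) ^ k) x) := by
    intro k
    induction k with
    | zero => intro x; rfl
    | succ k ih =>
      intro x
      rw [pow_succ, Module.End.mul_apply, hB', ih, pow_succ, Module.End.mul_apply]
      rfl
  have hBe : ∀ (g : L ≃ₐ[K] L) a, B (XRep K L ℂ g a) = XRep K L ℂ g (B a) := by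
    intro g a
    have h1 : B ∘ₗ (XRep K L ℂ g) = (XRep K L ℂ g) ∘ₗ B := by
      apply XX_ext
      intro x
      rw [LinearMap.comp_apply, LinearMap.comp_apply, ← toC_XRep, hB', hB', hαe, toC_XRep]
    exact LinearMap.congr_fun h1 a
  have hcomp : φ'.Lam = φ.Lam ∘ₗ B := by
    apply XX_ext
    intro x
    apply Subtype.ext
    rw [LinearMap.comp_apply, hB', φ'.spec, φ.spec]
    change _ = lamQ L (φ.phi (φ.phi.symm (φ'.phi x)))
    rw [LinearEquiv.apply_symm_apply]
  obtain ⟨V, _, _, _, ρ, hρ⟩ := isChar_inv hχ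
  have hρ' : ∀ g, ρ.character g = χ g⁻¹ := fun g => (congrFun hρ g).symm
  have e1 : IsReg φ χ (homDet ρ (XRep K L ℂ) φ.Lam φ.comm) :=
    ⟨V, inferInstance, inferInstance, inferInstance, ρ, hρ', rfl⟩
  have e2 : IsReg φ' χ (homDet ρ (XRep K L ℂ) φ'.Lam φ'.comm) :=
    ⟨V, inferInstance, inferInstance, inferInstance, ρ, hρ', rfl⟩
  refine ⟨homDet ρ (XRep K L ℂ) B hBe, ?_, ?_⟩
  · refine detOf_mem (detOf_homDet hρ' _ _ _) fun k => ?_
    have : Fintype (L ≃ₐ[K] L) := Fintype.ofFinite _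
    rw [finsum_eq_sum_of_fintype]
    refine mul_mem (inv_mem (natCast_mem QB _)) (sum_mem fun g _ => mul_mem (isChar_mem hχ g) ?_)
    obtain ⟨q, hq⟩ := trace_rat (α := XRep K L ℚ g ∘ₗ ((α : XX L ℚ →ₗ[ℚ] XX L ℚ) ^ k))
      (B := XRep K L ℂ g ∘ₗ B ^ k) (by
        intro x
        rw [LinearMap.comp_apply, hBpow, ← toC_XRep]
        rfl)
    rw [hq]
    exact SubfieldClass.ratCast_mem QB q
  · rw [e1.unique h, e2.unique h']
    exact homDet_comp ρ (XRep K L ℂ) φ.Lam B φ'.Lam φ.comm hBe φ'.comm hcomp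

end reg

/-- the group of the algebraic numbers -/
def algU : Subgroup ℂˣ where
  carrier := {u | (u : ℂ) ∈ QB}
  one_mem' := one_mem QB
  mul_mem' := fun {a b} ha hb => by
    change ((a * b : ℂˣ) : ℂ) ∈ QB
    rw [Units.val_mul]
    exact mul_mem ha hb
  inv_mem' := fun {a} ha => by
    change ((a⁻¹ : ℂˣ) : ℂ) ∈ QB
    rw [Units.val_inv_eq_inv_val]
    exact inv_mem ha

lemma mem_algU {u : ℂˣ} : u ∈ algU ↔ IsAlgebraic ℚ (u : ℂ) := mem_QB

section inv

variable (c : ArtinInvariant ℂˣ)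

variable {K L : Type} [Field K] [NumberField K] [Field L] [NumberField L] [Algebra K L]
  [IsGalois K L]

/-- `v` is the class of `A(χ, φ)` for every `φ` -/
def IsCls (K L : Type) [Field K] [NumberField K] [Field L] [NumberField L]
    [Algebra K L] [IsGalois K L] (χ : (L ≃ₐ[K] L) → ℂ) (v : ℂˣ ⧸ algU) : Prop :=
  ∀ (φ : StarkMap K L) (a : ℂˣ), IsA c φ χ a → v = a

variable {c}

lemma isCls_of {χ : (L ≃ₐ[K] L) → ℂ} (h : IsChar χ) {φ : StarkMap K L} {a : ℂˣ}
    (ha : IsA c φ χ a) : IsCls c K L χ a := by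
  intro φ' b hb
  obtain ⟨r, hr, hr2⟩ := ha
  obtain ⟨s, hs, hs2⟩ := hb
  obtain ⟨d, hd, rfl⟩ := isReg_ratio h hr hs
  rw [QuotientGroup.eq]
  change ((a⁻¹ * b : ℂˣ) : ℂ) ∈ QB
  rw [Units.val_mul, Units.val_inv_eq_inv_val, hr2, hs2]
  have e1 : ((c.val K L χ : ℂˣ) : ℂ) ≠ 0 := Units.ne_zero _
  have e2 : r ≠ 0 := hr.ne
  have h3 : (r / ((c.val K L χ : ℂˣ) : ℂ))⁻¹ * (r * d / ((c.val K L χ : ℂˣ) : ℂ)) = d := by
    field_simp
  rw [h3]
  exact hd

lemma exists_isA (c : ArtinInvariant ℂˣ) (φ : StarkMap K L) {χ : (L ≃ₐ[K] L) → ℂ}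
    (h : IsChar χ) : ∃ a : ℂˣ, IsA c φ χ a := by
  obtain ⟨a, ha⟩ := IsA.exists c φ h
  exact ⟨Units.mk0 a ha.ne, ha⟩

lemma exists_isCls (c : ArtinInvariant ℂˣ) {χ : (L ≃ₐ[K] L) → ℂ} (h : IsChar χ) :
    ∃ v, IsCls c K L χ v := by
  obtain ⟨φ⟩ := exists_StarkMap (L := L) K
  obtain ⟨a, ha⟩ := exists_isA c φ h
  exact ⟨_, isCls_of h ha⟩

lemma IsCls.unique {χ : (L ≃ₐ[K] L) → ℂ} (h : IsChar χ) {v v' : ℂˣ ⧸ algU}
    (hv : IsCls c K L χ v) (hv' : IsCls c K L χ v') : v = v' := by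
  obtain ⟨φ⟩ := exists_StarkMap (L := L) K
  obtain ⟨a, ha⟩ := exists_isA c φ h
  rw [hv φ a ha, hv' φ a ha]

variable (c)

open Classical in
/-- the class of `A(χ, φ)` modulo the algebraic numbers -/
noncomputable def aval (K L : Type) [Field K] [NumberField K] [Field L]
    [NumberField L] [Algebra K L] [IsGalois K L] (χ : (L ≃ₐ[K] L) → ℂ) : ℂˣ ⧸ algU :=
  if h : ∃ v, IsCls c K L χ v then h.choose else 1

variable {c}

lemma aval_spec {χ : (L ≃ₐ[K] L) → ℂ} (h : IsChar χ) : IsCls c K L χ (aval c K L χ) := by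
  have h1 := exists_isCls c h
  rw [aval, dif_pos h1]
  exact h1.choose_spec

lemma aval_eq {χ : (L ≃ₐ[K] L) → ℂ} (h : IsChar χ) {v : ℂˣ ⧸ algU}
    (hv : IsCls c K L χ v) : aval c K L χ = v :=
  IsCls.unique h (aval_spec h) hv

lemma aval_eq_of {χ : (L ≃ₐ[K] L) → ℂ} (h : IsChar χ) {φ : StarkMap K L} {a : ℂˣ}
    (ha : IsA c φ χ a) : aval c K L χ = a := aval_eq h (isCls_of h ha)

variable (c)

/-- **`A(χ, φ)` modulo the algebraic numbers as an inductive invariant** -/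
noncomputable def algInv : ArtinInvariant (ℂˣ ⧸ algU) where
  val K L _ _ _ _ _ _ χ := aval c K L χ
  val_add K L _ _ _ _ _ _ χ χ' h h' := by
    obtain ⟨φ⟩ := exists_StarkMap (L := L) K
    obtain ⟨a, ha⟩ := exists_isA c φ h
    obtain ⟨a', ha'⟩ := exists_isA c φ h'
    obtain ⟨d, hd⟩ := exists_isA c φ (h.add h')
    rw [aval_eq_of h ha, aval_eq_of h' ha', aval_eq_of (h.add h') hd]
    have h1 : (d : ℂ) = a * a' := ha.add h h' ha' hd
    have h2 : d = a * a' := by
      apply Units.ext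
      rw [h1, Units.val_mul]
    rw [h2]
    rfl
  val_infl K L N _ _ _ _ _ _ _ _ _ _ _ _ χ h := by
    have hN : IsChar (fun g : N ≃ₐ[K] N => χ (AlgEquiv.restrictNormalHom L g)) := by
      obtain ⟨V, _, _, _, ρ, rfl⟩ := h
      exact ⟨V, inferInstance, inferInstance, inferInstance,
        ρ.comp (AlgEquiv.restrictNormalHom L), rfl⟩
    obtain ⟨φ⟩ := exists_StarkMap (L := N) K
    obtain ⟨φ', hφ⟩ := φ.down (L := L)
    obtain ⟨a, ha⟩ := exists_isA c φ' h
    have ha0 := ha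
    obtain ⟨r, hr, hr2⟩ := ha
    obtain ⟨r', hr'⟩ := IsReg.exists φ hN
    have h1 : r' = r := IsReg.infl hφ hr hr'
    subst h1
    have i1 := c.val_infl K L N χ h
    have h3 : IsA c φ (fun g : N ≃ₐ[K] N => χ (AlgEquiv.restrictNormalHom L g)) (a : ℂ) :=
      ⟨r', hr', by rw [i1]; exact hr2⟩
    rw [aval_eq_of h ha0, aval_eq_of hN h3]
  val_ind K F L _ _ _ _ _ _ _ _ _ _ _ _ χ h := by
    have hi : IsChar (indChar K F L χ) := isChar_indChar h
    obtain ⟨φ⟩ := exists_StarkMap (L := L) K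
    obtain ⟨a, ha⟩ := exists_isA c (φ.res F) h
    have ha0 := ha
    obtain ⟨r, hr, hr2⟩ := ha
    obtain ⟨r', hr'⟩ := IsReg.exists φ hi
    have h1 : r' = r := IsReg.ind hr hr'
    subst h1
    have i1 := c.val_ind K F L χ h
    have h3 : IsA c φ (indChar K F L χ) (a : ℂ) := ⟨r', hr', by rw [i1]; exact hr2⟩
    rw [aval_eq_of h ha0, aval_eq_of hi h3]

end inv

end Pool.Agent.K4H34.AL
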