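import Mathlib
import Pool.Agent.K4H34.AL.Alg
import Pool.Agent.K4H34.ST.Main
import Pool.Agent.K4H74.SC.Lead
import Pool.Agent.K4H74.SC.Wrap
import Pool.Agent.K4H77.SL.Lin
import Pool.Agent.K4H77.SL.Def

/-!
# All the inductive invariants at once
-/

set_option autoImplicit false
set_option linter.unusedSectionVars false

namespace Pool.Agent.K4H34.AL

open NumberField Pool.Agent.K4H74 Pool.Agent.K4H74.ST Pool.Agent.K4H74.SK

/-- the logarithm of the Artin L-series as an inductive invariant -/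
noncomputable def logInv : ArtinInvariant (Multiplicative ({s : ℂ // 1 < s.re} → ℂ)) where
  val K L _ _ _ _ _ _ χ := Multiplicative.ofAdd fun s => ∑' x, SC.logTerm K L χ s.1 x
  val_add K L _ _ _ _ _ _ χ χ' h h' := by
    apply Multiplicative.toAdd.injective
    funext s
    exact (SC.hasSum_add (SC.logTerm_summable χ s.2).hasSum
      (SC.logTerm_summable χ' s.2).hasSum).tsum_eq
  val_infl K L N _ _ _ _ _ _ _ _ _ _ _ _ χ h := by
    apply Multiplicative.toAdd.injective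
    funext s
    change ∑' x, SC.logTerm K N _ s.1 x = ∑' x, SC.logTerm K L χ s.1 x
    rw [SC.logTerm_infl h]
  val_ind K F L _ _ _ _ _ _ _ _ _ _ _ _ χ h := by
    apply Multiplicative.toAdd.injective
    funext s
    exact (SC.hasSum_ind (K := K) (F := F) (L := L)
      (SC.logTerm_summable χ s.2).hasSum).tsum_eq

lemma logInv_val {E : Ext} (χ : G E → ℂ) (s : {s : ℂ // 1 < s.re}) {l : ℂ}
    (h : HasSum (SK.logTerm χ s.1) l) :
    Multiplicative.toAdd (logInv.val E.K E.L χ) s = l := (hasSum_iff.mp h).tsum_eq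

/-- products of inductive invariants -/
def prodInv {M M' : Type} [CommGroup M] [CommGroup M'] (A : ArtinInvariant M)
    (B : ArtinInvariant M') : ArtinInvariant (M × M') where
  val K L _ _ _ _ _ _ χ := (A.val K L χ, B.val K L χ)
  val_add K L _ _ _ _ _ _ χ χ' h h' := by
    rw [A.val_add K L χ χ' h h', B.val_add K L χ χ' h h']
    rfl
  val_infl K L N _ _ _ _ _ _ _ _ _ _ _ _ χ h := by
    rw [A.val_infl K L N χ h, B.val_infl K L N χ h]
  val_ind K F L _ _ _ _ _ _ _ _ _ _ _ _ χ h := by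
    rw [A.val_ind K F L χ h, B.val_ind K F L χ h]

/-- families of inductive invariants -/
def piInv {I M : Type} [CommGroup M] (A : I → ArtinInvariant M) : ArtinInvariant (I → M) where
  val K L _ _ _ _ _ _ χ := fun i => (A i).val K L χ
  val_add K L _ _ _ _ _ _ χ χ' h h' := by
    funext i
    exact (A i).val_add K L χ χ' h h'
  val_infl K L N _ _ _ _ _ _ _ _ _ _ _ _ χ h := by
    funext i
    exact (A i).val_infl K L N χ h
  val_ind K F L _ _ _ _ _ _ _ _ _ _ _ _ χ h := by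
    funext i
    exact (A i).val_ind K F L χ h

/-- the value at a pair -/
def pval {M : Type} [CommGroup M] (A : ArtinInvariant M) (x : Pair) : M := A.val x.1.K x.1.L x.2

/-- the elements of the group generated by the values at the pairs with the property `T` -/
theorem closure_form {M : Type} [CommGroup M] (A : ArtinInvariant M) (T : Pair → Prop) {y : M}
    (hy : y ∈ Subgroup.closure {y : M | ∃ x : Pair, T x ∧ y = pval A x}) :
    ∃ (r : ℕ) (x : Fin r → Pair) (k : Fin r → ℤ), (∀ i, T (x i)) ∧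
      y = ∏ i, pval A (x i) ^ k i := by
  induction hy using Subgroup.closure_induction with
  | mem y h =>
    obtain ⟨x, hx, rfl⟩ := h
    exact ⟨1, fun _ => x, fun _ => 1, fun _ => hx, by simp⟩
  | one => exact ⟨0, fun i => i.elim0, fun i => i.elim0, fun i => i.elim0, by simp⟩
  | mul a b _ _ ha hb =>
    obtain ⟨r, x, k, hx, rfl⟩ := ha
    obtain ⟨r', x', k', hx', rfl⟩ := hb
    refine ⟨r + r', Fin.append x x', Fin.append k k', fun i => ?_, ?_⟩
    · induction i using Fin.addCases with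
      | left i => rw [Fin.append_left]; exact hx i
      | right i => rw [Fin.append_right]; exact hx' i
    · rw [Fin.prod_univ_add]
      simp only [Fin.append_left, Fin.append_right]
  | inv a _ ha =>
    obtain ⟨r, x, k, hx, rfl⟩ := ha
    refine ⟨r, x, fun i => - k i, hx, ?_⟩
    rw [← Finset.prod_inv_distrib]
    exact Finset.prod_congr rfl fun i _ => by rw [zpow_neg]

/-- an inductive invariant of a character to a suitable power is a product of powers of its values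
on the family -/
theorem power_form {M : Type} [CommGroup M] (A : ArtinInvariant M) (T : Pair → Prop) {m : ℕ}
    (hm : m ≠ 0)
    (h1 : ∀ (K : Type) [Field K] [NumberField K], T ⟨⟨K, K⟩, fun _ => 1⟩)
    (h2 : ∀ E : Ext, IsTotallyReal E.K → ∀ ψ : G E →* ℂˣ, (∀ t : G E, IsCC t → ψ t = -1) →
      T ⟨E, lin ψ⟩)
    (h3 : ∀ E : Ext, IsTotallyComplex E.K →
      (∀ P : Ideal (𝓞 E.L), P.IsMaximal → (∀ g ∈ K4H77.SL.inertia E.K P, g = 1) ∧
        ((m : 𝓞 E.L) ∈ P → ∀ g ∈ K4H77.SL.decomp E.K P, g = 1)) →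
      ∀ ψ : G E →* ℂˣ, Function.Injective ψ → T ⟨E, lin ψ⟩)
    {E : Ext} {χ : G E → ℂ} (hχ : IsChr χ) :
    ∃ n : ℕ, 0 < n ∧ ∃ (r : ℕ) (x : Fin r → Pair) (k : Fin r → ℤ), (∀ i, T (x i)) ∧
      pval A ⟨E, χ⟩ ^ n = ∏ i, pval A (x i) ^ k i := by
  let P : Subgroup M := Subgroup.closure {y : M | ∃ x : Pair, T x ∧ y = pval A x}
  let B : ArtinInvariant (M ⧸ P) := mapInv (QuotientGroup.mk' P) A
  have hB : ∀ x : Pair, T x → B.val x.1.K x.1.L x.2 = 1 := by
    intro x hx
    exact (QuotientGroup.eq_one_iff (N := P) _).mpr (Subgroup.subset_closure ⟨x, hx, rfl⟩)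
  have i1 : TrivOne B := by
    intro K _ _
    exact hB _ (h1 K)
  have i2 : K4H77.SL.TrivSplit B m := by
    apply K4H77.SL.trivSplit_of_lin
    intro K L _ _ _ _ _ _ hK hin hde ψ hψ
    exact hB _ (h3 ⟨K, L⟩ hK (fun P hP => ⟨hin P hP, fun hm => hde P hP hm⟩) ψ hψ)
  have i3 : TrivOdd B := by
    intro K L _ _ _ _ _ _ hK ψ hψ
    refine hB _ (h2 ⟨K, L⟩ hK ψ ?_)
    rintro t ⟨φ, hφ⟩
    refine hψ φ t ?_
    ext x
    exact (hφ x).symm
  have h4 := Pool.Agent.K4H34.ST.main hm i1 i3 i2 E.K E.L (isChr_iff.mp hχ)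
  obtain ⟨n, hn, h5⟩ := isOfFinOrder_iff_pow_eq_one.mp h4
  refine ⟨n, hn, closure_form A T ?_⟩
  have h6 : B.val E.K E.L χ = QuotientGroup.mk' P (pval A ⟨E, χ⟩) := rfl
  rw [h6, ← map_pow] at h5
  exact (QuotientGroup.eq_one_iff _).mp h5

/-- the logarithm of the L-series, the leading coefficient, the Stark quotients for all
automorphisms and the class of `A(χ, φ)` modulo the algebraic numbers -/
noncomputable def allInv {c : Pair → ℂ} (hc : IsLeading c) :=
  prodInv (prodInv logInv (leadInv hc)) (prodInv (piInv fun σ : ℂ ≃+* ℂ => inv hc σ)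
    (algInv (leadInv hc)))

section vals

variable {c : Pair → ℂ} (hc : IsLeading c)

lemma pval_log {x : Pair} {s : ℂ} (hs : 1 < s.re) {l : ℂ} (h : HasSum (SK.logTerm x.2 s) l) :
    Multiplicative.toAdd (pval logInv x) ⟨s, hs⟩ = l := logInv_val x.2 ⟨s, hs⟩ h

lemma pval_lead {x : Pair} (hx : IsChr x.2) : ((pval (leadInv hc) x : ℂˣ) : ℂ) = c x :=
  leadInv_val hc hx

lemma pval_defect (σ : ℂ ≃+* ℂ) {x : Pair} (hx : IsChr x.2) {d : ℂˣ} (h : IsDefect c σ x.2 d) :
    pval (inv hc σ) x = d := (isDefect_iff hc σ hx).mp h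

lemma pval_alg {x : Pair} (hx : IsChr x.2) {Λ : Y x.1 →ₗ[ℂ] Y x.1} (hΛ : IsStarkMap Λ) {a : ℂˣ}
    (h : SK.IsA c Λ x.2 a) : pval (algInv (leadInv hc)) x = a := by
  obtain ⟨φ, hφ⟩ := exists_old hΛ
  have h' := isChr_iff.mp hx
  exact aval_eq_of h' (isA_old hc hφ h' h)

include hc in
lemma isA_ne {x : Pair} (hx : IsChr x.2) {Λ : Y x.1 →ₗ[ℂ] Y x.1} (hΛ : IsStarkMap Λ) {a : ℂ}
    (h : SK.IsA c Λ x.2 a) : a ≠ 0 := by
  obtain ⟨φ, hφ⟩ := exists_old hΛ
  exact (isA_old hc hφ (isChr_iff.mp hx) h).ne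

lemma rel_map {M M' : Type} [CommGroup M] [CommGroup M'] (f : M →* M') (A : ArtinInvariant M)
    (B : ArtinInvariant M') (hf : ∀ x, f (pval A x) = pval B x) {y : Pair} {n r : ℕ}
    {x : Fin r → Pair} {k : Fin r → ℤ} (h : pval A y ^ n = ∏ i, pval A (x i) ^ k i) :
    pval B y ^ n = ∏ i, pval B (x i) ^ k i := by
  have h1 := congrArg f h
  rw [map_pow, map_prod, hf] at h1
  rw [h1]
  exact Finset.prod_congr rfl fun i _ => by rw [map_zpow, hf]

/-- the relations for the four invariants -/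
theorem all_rel {y : Pair} {n r : ℕ} {x : Fin r → Pair} {k : Fin r → ℤ}
    (h : pval (allInv hc) y ^ n = ∏ i, pval (allInv hc) (x i) ^ k i) :
    pval logInv y ^ n = ∏ i, pval logInv (x i) ^ k i ∧
    pval (leadInv hc) y ^ n = ∏ i, pval (leadInv hc) (x i) ^ k i ∧
    (∀ σ : ℂ ≃+* ℂ, pval (inv hc σ) y ^ n = ∏ i, pval (inv hc σ) (x i) ^ k i) ∧
    pval (algInv (leadInv hc)) y ^ n = ∏ i, pval (algInv (leadInv hc)) (x i) ^ k i := by
  refine ⟨?_, ?_, fun σ => ?_, ?_⟩
  · exact rel_map ((MonoidHom.fst _ _).comp (MonoidHom.fst _ _)) _ _ (fun _ => rfl) h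
  · exact rel_map ((MonoidHom.snd _ _).comp (MonoidHom.fst _ _)) _ _ (fun _ => rfl) h
  · exact rel_map ((Pi.evalMonoidHom (fun _ : ℂ ≃+* ℂ => ℂˣ) σ).comp
      ((MonoidHom.fst _ _).comp (MonoidHom.snd _ _))) _ _ (fun _ => rfl) h
  · exact rel_map ((MonoidHom.snd _ _).comp (MonoidHom.snd _ _)) _ _ (fun _ => rfl) h

lemma log_rel {y : Pair} {n r : ℕ} {x : Fin r → Pair} {k : Fin r → ℤ}
    (h : pval logInv y ^ n = ∏ i, pval logInv (x i) ^ k i) {s : ℂ} (hs : 1 < s.re) {l : ℂ}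
    {l' : Fin r → ℂ} (hl : HasSum (SK.logTerm y.2 s) l)
    (hl' : ∀ i, HasSum (SK.logTerm (x i).2 s) (l' i)) : n * l = ∑ i, k i * l' i := by
  let ev : Multiplicative ({s : ℂ // 1 < s.re} → ℂ) →* Multiplicative ℂ :=
    AddMonoidHom.toMultiplicative (Pi.evalAddMonoidHom (fun _ => ℂ) ⟨s, hs⟩)
  have h1 := congrArg (fun z => Multiplicative.toAdd (ev z)) h
  simp only [map_pow, map_prod, map_zpow, toAdd_pow, toAdd_prod, toAdd_zpow] at h1
  have h2 : ∀ z : Pair, ∀ l : ℂ, HasSum (SK.logTerm z.2 s) l →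
      Multiplicative.toAdd (ev (pval logInv z)) = l := fun z l hl => pval_log hs hl
  rw [h2 y l hl, Finset.sum_congr rfl (fun i _ => by rw [h2 (x i) _ (hl' i)])] at h1
  rw [nsmul_eq_mul] at h1
  rw [h1]
  exact Finset.sum_congr rfl fun i _ => by rw [zsmul_eq_mul]

end vals

end Pool.Agent.K4H34.AL
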